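import Pool.Agent.Q45.ML.Real
import Pool.Agent.Q45.ML.Conseq

/-!
# The central value in the global Gan-Gross-Prasad conjecture, from Satake parameters

Let `π` be tempered and `R` the symplectic representation of the conjecture, `n = dim R`. For each finite place
`v` with residue field of order `q v` let `α v j` be the eigenvalues of Frobenius on the inertia invariants of
`R ∘ φ_v` (padded by zeros), so that `|α v j| ≤ 1` and the power sums are real, `L` the product of the finite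
local factors and `A` the product of the archimedean ones, `A(1/2) ≠ 0`. For `γ > π/2` put

`S(T) = ∑_v ∑_{k ≥ 1} (∑_j (α v j)^k / (k q_v^{k/2})) e^{iγ k log q_v/T} / Γ(1 + k log q_v/T)`.

Then `L(1/2) ≠ 0` if and only if `Re S(T)` is bounded below along one sequence `T_i → ∞`, if and only if
`Re S(T)` converges; the sign and the size of `L(1/2)` and the order of the zero are read off as well, and the
equivalence of (i), (ii), (iii) becomes a statement about the local components and the sums `S(T_i)`.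
-/

set_option autoImplicit false

namespace Pool.Agent.Results.MP_86aa84_nt.CentralValueCriterion

open Filter Topology Asymptotics Pool.Agent.Q45.ML NumberField IsDedekindDomain

/-- `q v` are the orders of the residue fields at the finite places `v` of a global field -/
structure Norms {P : Type} (q : P → ℝ) : Prop where
  two_le : ∀ v, 2 ≤ q v
  summable : ∀ σ : ℝ, 1 < σ → Summable fun v => q v ^ (-σ)

/-- the term at `(v, k)`, `k = z.2 + 1` -/
noncomputable def term {P : Type} {n : ℕ} (q : P → ℝ) (α : P → Fin n → ℂ) (γ T : ℝ) (z : P × ℕ) : ℂ :=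
  (∑ j, α z.1 j ^ (z.2 + 1)) / ((z.2 + 1) * (q z.1 ^ (((z.2 : ℝ) + 1) / 2) : ℝ)) *
    (Complex.exp ((γ * ((z.2 + 1) * Real.log (q z.1) / T) : ℝ) * Complex.I) /
      (Real.Gamma (1 + (z.2 + 1) * Real.log (q z.1) / T) : ℂ))

/-- the smoothed sum -/
noncomputable def S {P : Type} {n : ℕ} (q : P → ℝ) (α : P → Fin n → ℂ) (γ T : ℝ) : ℂ :=
  ∑' z, term q α γ T z

/-- the number of zeros minus the number of poles of `L` on `(1/2, ∞)`, with multiplicities -/
noncomputable def count (L : ℂ → ℂ) : ℤ :=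
  ∑ᶠ σ ∈ Set.Ioi (1 / 2 : ℝ), (meromorphicOrderAt L (σ : ℂ)).untop₀

theorem term_eq {P : Type} {n : ℕ} {q : P → ℝ} (hq : Norms q) (α : P → Fin n → ℂ) (γ T : ℝ)
    (z : P × ℕ) : term q α γ T z = sterm q α (1 / 2) γ T z := by
  unfold term sterm
  congr 3
  have h0 : 0 ≤ q z.1 := by linarith [hq.two_le z.1]
  rw [Complex.ofReal_cpow h0]
  congr 1
  push_cast
  ring

/-- the three assertions of the conjecture for `π`: `per` is (i), `hom` and `homv v` are the global and the local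
conditions of (ii) and (iii), `cen` is the condition on the central value -/
def Equivalences {P : Type} (per hom : Prop) (homv : P → Prop) (cen : Prop) : Prop :=
  List.TFAE [per, hom ∧ cen, (∀ v, homv v) ∧ cen]

theorem result :
    (∀ (F : Type) [Field F] [NumberField F],
      Norms fun v : HeightOneSpectrum (𝓞 F) => (Ideal.absNorm v.asIdeal : ℝ)) ∧
    ∀ {P Q : Type} (q : P → ℝ) (_ : Norms q) {n : ℕ} (α : P → Fin n → ℂ) (_ : ∀ v j, ‖α v j‖ ≤ 1)
      (_ : ∀ v (k : ℕ), (∑ j, α v j ^ k).im = 0) (L A : ℂ → ℂ)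
      (_ : ∀ s : ℂ, 1 < s.re → HasProd (fun v => ∏ j, (1 - α v j * (q v : ℂ) ^ (-s))⁻¹) (L s))
      (_ : ∀ x : ℝ, 1 / 2 ≤ x → x ≤ 1 → MeromorphicAt L (x : ℂ))
      (_ : AnalyticAt ℂ L ((1 / 2 : ℝ) : ℂ)) (_ : A ((1 / 2 : ℝ) : ℂ) ≠ 0) (γ : ℝ) (_ : Real.pi / 2 < γ),
    (∀ T : ℝ, 0 < T → Summable fun z => ‖term q α γ T z‖) ∧
    (L ((1 / 2 : ℝ) : ℂ) = (-1) ^ count L * (‖L ((1 / 2 : ℝ) : ℂ)‖ : ℂ) ∧
      (fun T : ℝ => (-1) ^ count L * (Real.exp (S q α γ T).re : ℂ) - L ((1 / 2 : ℝ) : ℂ)) =O[atTop]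
        (fun T : ℝ => 1 / T)) ∧
    List.TFAE [A ((1 / 2 : ℝ) : ℂ) * L ((1 / 2 : ℝ) : ℂ) ≠ 0,
      ∃ M : ℝ, ∀ᶠ T : ℝ in atTop, M ≤ (S q α γ T).re,
      ∃ ℓ : ℝ, Tendsto (fun T : ℝ => (S q α γ T).re) atTop (𝓝 ℓ),
      ∃ (M : ℝ) (t : ℕ → ℝ), Tendsto t atTop atTop ∧ ∀ i, M ≤ (S q α γ (t i)).re] ∧
    (∀ k : ℤ, List.TFAE [meromorphicOrderAt L ((1 / 2 : ℝ) : ℂ) = k,
      ∃ M : ℝ, ∀ᶠ T : ℝ in atTop, |(S q α γ T).re + k * Real.log T| ≤ M,
      Tendsto (fun T : ℝ => (S q α γ T).re / Real.log T) atTop (𝓝 (-k)),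
      ∃ t : ℕ → ℝ, Tendsto t atTop atTop ∧
        Tendsto (fun i => (S q α γ (t i)).re / Real.log (t i)) atTop (𝓝 (-k))]) ∧
    ∀ (per hom : Prop) (homv : Q → Prop),
      (Equivalences per hom homv (A ((1 / 2 : ℝ) : ℂ) * L ((1 / 2 : ℝ) : ℂ) ≠ 0) ↔
        Equivalences per hom homv
          (∃ (M : ℝ) (t : ℕ → ℝ), Tendsto t atTop atTop ∧ ∀ i, M ≤ (S q α γ (t i)).re)) := by
  refine ⟨fun F _ _ => ⟨fun v => two_le_nrm v, fun σ hσ => nrm_summable hσ⟩, ?_⟩
  intro P Q q hq n α hα hreal L A hL hmer hA hA0 γ hγ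
  have E : Eul n q α 0 1 := ⟨zero_le_one, hq.two_le, hq.summable, fun v j => by
    rw [Real.rpow_zero]; exact hα v j⟩
  have hR : RealSums α := fun v k => hreal v k
  have hS : ∀ T, smooth q α (1 / 2) γ T = S q α γ T := by
    intro T
    unfold smooth S
    simp only [term_eq hq]
  have hF : ∀ s : ℂ, (0 : ℝ) + 1 < s.re →
      HasProd (fun v => ∏ j, (1 - α v j * (q v : ℂ) ^ (-s))⁻¹) (L s) := fun s hs =>
    hL s (by linarith)
  have hm' : ∀ x : ℝ, (1 / 2 : ℝ) ≤ x → x ≤ 0 + 1 → MeromorphicAt L (x : ℂ) := fun x hx hx1 =>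
    hmer x hx (by linarith)
  have hval := E.real_value hR (F := L) (s₀ := 1 / 2) (by norm_num) hm' hF hA hγ
  obtain ⟨m, r, h1, h2, h3, h4⟩ := E.law hR (F := L) (s₀ := 1 / 2) (by norm_num) hm' hF hγ
  simp only [hS] at hval h4
  obtain ⟨hv1, hv2, hv3⟩ := hval
  have hlim : Tendsto (fun T : ℝ => Real.exp (S q α γ T).re) atTop (𝓝 ‖L ((1 / 2 : ℝ) : ℂ)‖) := by
    have h5 := (tendsto_of_rate hv2).norm
    refine h5.congr fun T => ?_
    rw [norm_mul, norm_zpow, norm_neg, norm_one, one_zpow, one_mul, Complex.norm_real,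
      Real.norm_eq_abs, abs_of_pos (Real.exp_pos _)]
  have hT : List.TFAE [A ((1 / 2 : ℝ) : ℂ) * L ((1 / 2 : ℝ) : ℂ) ≠ 0,
      ∃ M : ℝ, ∀ᶠ T : ℝ in atTop, M ≤ (S q α γ T).re,
      ∃ ℓ : ℝ, Tendsto (fun T : ℝ => (S q α γ T).re) atTop (𝓝 ℓ),
      ∃ (M : ℝ) (t : ℕ → ℝ), Tendsto t atTop atTop ∧ ∀ i, M ≤ (S q α γ (t i)).re] := by
    tfae_have 1 → 3 := by
      intro h
      have hL0 : L ((1 / 2 : ℝ) : ℂ) ≠ 0 := right_ne_zero_of_mul h
      have h6 := (Real.continuousAt_log (norm_ne_zero_iff.2 hL0)).tendsto.comp hlim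
      refine ⟨_, h6.congr fun T => ?_⟩
      simp
    tfae_have 3 → 2 := by
      rintro ⟨ℓ, hℓ⟩
      exact ⟨ℓ - 1, hℓ.eventually (eventually_ge_nhds (by linarith))⟩
    tfae_have 2 → 4 := by
      rintro ⟨M, hM⟩
      obtain ⟨N, hN⟩ := eventually_atTop.1 hM
      refine ⟨M, fun i => max N i, ?_, fun i => hN _ (le_max_left _ _)⟩
      exact tendsto_atTop_mono (fun i => le_max_right _ _) tendsto_natCast_atTop_atTop
    tfae_have 4 → 1 := by
      rintro ⟨M, t, ht, hM⟩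
      have h6 := hlim.comp ht
      have h7 : Real.exp M ≤ ‖L ((1 / 2 : ℝ) : ℂ)‖ :=
        ge_of_tendsto' h6 fun i => Real.exp_le_exp.2 (hM i)
      refine mul_ne_zero hA0 (norm_pos_iff.1 (lt_of_lt_of_le (Real.exp_pos M) h7))
    tfae_finish
  refine ⟨fun T hT0 => ?_, ⟨hv1, hv2⟩, hT, fun k => ?_, fun per hom homv => ?_⟩
  · have := E.sterm_summable (1 / 2) γ hT0
    simpa only [← term_eq hq] using this
  · have h := order_forms h1 h4 k
    exact h
  · have h := hT.out 0 3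
    unfold Equivalences
    rw [h]

end Pool.Agent.Results.MP_86aa84_nt.CentralValueCriterion
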