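import Pool.Agent.Q5.NF.Osc

/-!
# Nonvanishing of `L(π, R, 1/2)` and the distribution of the partial Euler products

For a tempered representation `π` of `G(V) × G(W)` over a number field `K` and the symplectic representation `R` the
eigenvalues `r_{v,j}` of `R ∘ φ_v` on the inertia invariants, `v ∉ S`, have absolute value at most `1` and real power
sums. The theorem describes the error of the partial Euler products at `1/2`.
-/

set_option autoImplicit false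

open MeasureTheory Filter Topology Set Complex NumberField IsDedekindDomain

namespace Pool.Agent.Results.MP_86aa84_nt.LimitLaw

open Pool.Agent.H921R2.TatePole (nm)
open Pool.Agent.Q5.NF (Roots IsL product dev)
open Pool.Agent.Q5.DC (HasLimitLaw LimitLaw)

/-- no zeros with `Re s > 1/2` -/
def RH (F : ℂ → ℂ) : Prop := ∀ s : ℂ, 1 / 2 < s.re → F s ≠ 0

/-- `ρ` is the order of `F` at `1/2` and `A` the leading coefficient: `F(s)/(s - 1/2)^ρ → A` -/
def Leading (F : ℂ → ℂ) (ρ A : ℝ) : Prop :=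
  ∃ e : ℕ, ρ = e ∧ Tendsto (fun s : ℂ => F s / (s - 1 / 2) ^ e) (𝓝[≠] (1 / 2 : ℂ)) (𝓝 (A : ℂ))

/-- the order of vanishing at `1/2 + it` -/
noncomputable def mult (F : ℂ → ℂ) (t : ℝ) : ℕ := (analyticOrderAt F (1 / 2 + t * I)).toNat

/-- `∫_e^X (log x · δ(x))² dx/x ≤ B log X` for some `B` and all large `X` -/
def BoundedMeanSquare (δ : ℝ → ℝ) : Prop := ∃ B : ℝ, ∀ᶠ X : ℝ in atTop,
  ∫ x in Real.exp 1..X, (Real.log x * δ x) ^ 2 / x ≤ B * Real.log X

/-- `(log X)⁻¹ ∫_e^X 1[W(x) > c] dx/x`, the logarithmic share of the `x ≤ X` with `W(x) > c` -/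
noncomputable def share (W : ℝ → ℝ) (c X : ℝ) : ℝ :=
  (∫ x in Real.exp 1..X, (if c < W x then (1 : ℝ) else 0) / x) / Real.log X

/-- `RH`, and `B ≥ m_t/|t|` for all `t ≠ 0` if `ρ`, `A` are the order and the leading coefficient -/
def Conclusion (F : ℂ → ℂ) (ρ A B : ℝ) : Prop :=
  RH F ∧ (Leading F ρ A → ∀ t : ℝ, t ≠ 0 → (mult F t : ℝ) / |t| ≤ B)

/-- Under `RH` and `Leading`, for `t ≠ 0` and `0 ≤ c < m_t/(2|t|)` the sets `{x : log x · δ(x) > c}` and
`{x : log x · δ(x) < -c}` have lower logarithmic density at least `(m_t/|t| - 2c)²/(4V)`, `V = ∑ m_t²/t²`. -/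
def Densities (F : ℂ → ℂ) (ρ A : ℝ) (δ : ℝ → ℝ) : Prop :=
  RH F ∧ Leading F ρ A → ∀ V : ℝ, HasSum (fun t : ℝ => ((mult F t : ℝ) / t) ^ 2) V →
    ∀ t c : ℝ, t ≠ 0 → 0 ≤ c → 2 * c < (mult F t : ℝ) / |t| → ∀ ε : ℝ, 0 < ε → ∀ᶠ X : ℝ in atTop,
      ((mult F t : ℝ) / |t| - 2 * c) ^ 2 / (4 * V) - ε ≤ share (fun x => Real.log x * δ x) c X ∧
      ((mult F t : ℝ) / |t| - 2 * c) ^ 2 / (4 * V) - ε ≤ share (fun x => -(Real.log x * δ x)) c X

/-- the zeros `1/2 + it`, `t > 0`, are simple, and their ordinates are linearly independent over `ℚ` -/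
def SimpleIndependent (F : ℂ → ℂ) : Prop :=
  (∀ t : ℝ, 0 < t → mult F t ≤ 1) ∧ LinearIndepOn ℚ id {t : ℝ | 0 < t ∧ mult F t ≠ 0}

/-- the Bessel function `J₀(x) = ∑ (-(x/2)²)^k/(k!)²` -/
noncomputable def J0 (x : ℝ) : ℝ := ∑' k : ℕ, (-(x / 2) ^ 2) ^ k / ((k.factorial : ℝ) ^ 2)

/-- **The random model** for `E(x) = log x · δ(x)`: for all `h_j ≥ 0` and real `ξ_j` the means of
`exp (i ∑ ξ_j E(x e^{h_j}))` tend to the product over `t > 0` of `J₀(2 |∑ ξ_j e^{i t h_j}|/t)^(m_t)`. -/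
def Follows (F : ℂ → ℂ) (δ : ℝ → ℝ) : Prop :=
  ∀ (k : ℕ) (h ξ : Fin k → ℝ), (∀ j, 0 ≤ h j) →
    ∃ L : ℂ, HasProd (fun t : ℝ =>
        (((if 0 < t then J0 (2 * (‖∑ j, (ξ j : ℂ) * exp ((t * h j : ℝ) * I)‖ / t)) ^ mult F t else 1) : ℝ) : ℂ)) L ∧
      Tendsto (fun X : ℝ => (∫ x in Real.exp 1..X, exp (((∑ j, ξ j *
        (Real.log (x * Real.exp (h j)) * δ (x * Real.exp (h j))) : ℝ) : ℂ) * I) / x) / Real.log X) atTop (𝓝 L)

/-! ### proofs -/

open Pool.Agent.Q5.LI (RHH LeadH multH fac kf bz bt RandomModel li_iff)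
open Pool.Agent.Q5.NF (errN oscN nonvanishing)
open Pool.Agent.Q5.DC (law_tfae)

theorem follows_eq (F : ℂ → ℂ) (δ : ℝ → ℝ) :
    Follows F δ ↔ RandomModel (multH F) fun x => Real.log x * δ x := by
  unfold Follows RandomModel
  refine forall_congr' fun k => forall_congr' fun h' => forall_congr' fun ξ => forall_congr' fun hh => ?_
  refine exists_congr fun L => ?_
  refine and_congr_left fun _ => ?_
  have e : ∀ t : ℝ, (if 0 < t then J0 (2 * (‖∑ j, (ξ j : ℂ) * exp ((t * h' j : ℝ) * I)‖ / t)) ^ mult F t else 1) =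
      fac (multH F) (kf h' ξ t) t := by
    intro t
    unfold fac
    split_ifs with ht
    · congr 1
      unfold J0 bz bt kf
      refine tsum_congr fun k => ?_
      rw [norm_div, Complex.norm_real, Real.norm_of_nonneg ht.le, mul_div_cancel_left₀ _ two_ne_zero]
    · rfl
  simp only [e]

/-- **The central value `L(π, R, 1/2)` and the distribution of the Euler products.** -/
theorem result (K : Type) [Field K] [NumberField K] (n : ℕ) (S : Finset (HeightOneSpectrum (𝓞 K)))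
    (r : HeightOneSpectrum (𝓞 K) → Fin n → ℂ) (hr : Roots S r) (F : ℂ → ℂ) (hF : IsL S r F) :
    (∀ ρ A : ℝ, 0 < A →
      List.TFAE [RH F ∧ Leading F ρ A, BoundedMeanSquare (dev S r ρ A), HasLimitLaw (dev S r ρ A),
        LimitLaw (mult F) (dev S r ρ A)] ∧
      (∀ B : ℝ, (∀ᶠ x : ℝ in atTop, Real.log x * dev S r ρ A x ≤ B) → Conclusion F ρ A B) ∧
      (∀ B : ℝ, (∀ x : ℝ, 1 / 2 < x → F x ≠ 0) → (∀ᶠ x : ℝ in atTop, -B ≤ Real.log x * dev S r ρ A x) →
        Conclusion F ρ A B) ∧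
      Densities F ρ A (dev S r ρ A) ∧
      (BoundedMeanSquare (dev S r ρ A) ∧ Follows F (dev S r ρ A) ↔
        (RH F ∧ Leading F ρ A) ∧ SimpleIndependent F)) ∧
    (RH F ∧ F (1 / 2) ≠ 0 ↔ ∃ A : ℝ, 0 < A ∧ HasLimitLaw (dev S r 0 A)) := by
  have main : ∀ ρ A : ℝ, 0 < A →
      List.TFAE [RH F ∧ Leading F ρ A, BoundedMeanSquare (dev S r ρ A), HasLimitLaw (dev S r ρ A),
        LimitLaw (mult F) (dev S r ρ A)] := by
    intro ρ A hA
    obtain ⟨h1, h2, h3⟩ := errN hr hF (ρ := ρ) hA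
    exact law_tfae h1 h2 h3
  refine ⟨fun ρ A hA => ?_, ?_⟩
  · obtain ⟨k1, k2, k3⟩ := oscN hr hF (ρ := ρ) hA
    refine ⟨main ρ A hA, k1, k2, k3, ?_⟩
    have h1 : RH F ∧ Leading F ρ A ↔ BoundedMeanSquare (dev S r ρ A) := (main ρ A hA).out 0 1
    rw [h1]
    refine and_congr_right fun hB => ?_
    obtain ⟨hW, -, h3⟩ := errN hr hF (ρ := ρ) hA
    obtain ⟨V, -, P⟩ := h3 (h1.2 hB)
    rw [follows_eq]
    exact (li_iff hW P).symm
  · refine (nonvanishing hr hF).trans (exists_congr fun A => and_congr_right fun hA => ?_)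
    exact (main 0 A hA).out 0 2

end Pool.Agent.Results.MP_86aa84_nt.LimitLaw
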