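import Mathlib
import Pool.Agent.Q18.P.Cat

/-!
# Simultaneous nonvanishing of `L(1/2, π_i, R_i)` and ONE Euler product on one sequence of windows

Let `π_1, …, π_m` be tempered representations as in the problem over a number field `K` (for example all twists of `π` by
a finite group of characters, or all members of a finite family of `L`-packets), `S` a finite set of finite places
containing the bad ones, and `r_{i,v,j}`, `v ∉ S`, the eigenvalues of the symplectic representation `R_i` at the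
Frobenius (Satake) parameter of `π_{i,v}`; they have absolute value `1` and are stable under `z ↦ z⁻¹`. Let
`F_i(s) = ∏_{v ∉ S} ∏_j (1 - r_{i,v,j} q_v^{-s})⁻¹` be the partial `L`-functions, assumed to be holomorphic and of polynomial
growth in half planes `Re s > 1/2 - η` (Rankin-Selberg theory and the transfer to general linear groups); the missing
factors are finite and nonzero at `1/2`. Let

`P(y) = ∏_i ∏_{v ∉ S, q_v ≤ y} |∏_j (1 - r_{i,v,j} q_v^{-1/2})|`,
`P*(y) = exp (- ∑_i ∑_{v ∉ S, q_v^k ≤ y} (∑_j r_{i,v,j}^k) / (k q_v^{k/2}))`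

be the partial Euler products at `1/2` of the whole family. Fix `0 < δ < 1`; the windows are `[Y^(1-δ), Y]`. `RH` is the
statement `F_i(s) ≠ 0` for all `i` and all `s` with `Re s > 1/2`. Below, (b) holds for arbitrarily large `Y`, i.e. on one
sequence of windows, which may be as sparse as we like, and (c) for all large `Y`.

1. `RH` and `F_i(1/2) ≠ 0` for ALL `i` hold together if and only if (b) `∫ |log P(y)| dy/y ≤ B log Y` for some `B`; if and
   only if (c) holds.
2. If the orders at `1/2` are even (all root numbers are `1`): `RH` and `F_i(1/2) ≠ 0` for ALL `i` hold together if and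
   only if (b), or (c), `∫ max (log P - κ log log y, 0) dy/y ≤ B log Y` for some `B`, for one given `κ`, `0 ≤ κ < 2`.
   So the conditions on the central values in (ii) and (iii) of the problem for all `π_i` at once are, under the Riemann
   hypothesis, ONE one-sided bound for mean values in one sequence of windows.
3. `RH` and `∑_i ord_{1/2} F_i ≤ κ` hold together if and only if (b), or (c), of 2. holds, for every real `κ`. Then at most
   `κ` of the `m` central values vanish, and at most `κ/2` if the orders are even.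
4. For `A > 0`: `RH` and `∏_i F_i(1/2) = A` hold together if and only if (b), or (c), `∫ |log (A P*(y))| dy/y ≤ ε log Y` for
   each `ε > 0`.
5. `RH` and `F_i(1/2) = 0` for at least one `i` hold together if and only if for some integer `e ≥ 1` and some `B`,
   `∫ |log P - e log log y| dy/y ≤ B log Y` for arbitrarily large `Y`.
-/

set_option autoImplicit false

namespace Pool.Agent.Results.MP_86aa84_nt.SimultaneousWindows

open Filter Topology Set Complex NumberField IsDedekindDomain MeasureTheory ComplexConjugate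
open Pool.Agent.Q18.P (norm Holo NoZeros Order MeanBound error excess upTo SelfDual)

variable {K : Type} [Field K] [NumberField K] {m : ℕ} {N : Fin m → ℕ}

/-- `F` is holomorphic, of polynomial growth in a half plane `Re s > 1/2 - η`, and for `Re s > 1` it is the Euler
product. -/
structure IsL {n : ℕ} (S : Finset (HeightOneSpectrum (𝓞 K))) (r : HeightOneSpectrum (𝓞 K) → Fin n → ℂ)
    (F : ℂ → ℂ) : Prop where
  holo : Holo (1 / 2) F
  euler : ∀ s : ℂ, 1 < s.re → HasProd (fun v : {v : HeightOneSpectrum (𝓞 K) // v ∉ S} =>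
    (∏ j, (1 - r v.1 j * (norm v.1 : ℂ) ^ (-s)))⁻¹) (F s)

/-- `P(y) = ∏_i ∏_{v ∉ S, q_v ≤ y} |∏_j (1 - r_{i,v,j} q_v^{-1/2})|` -/
noncomputable def product (S : Finset (HeightOneSpectrum (𝓞 K)))
    (r : (i : Fin m) → HeightOneSpectrum (𝓞 K) → Fin (N i) → ℂ) (y : ℝ) : ℝ :=
  ∏ i, ∏ᶠ v ∈ upTo S y, ‖∏ j, (1 - r i v j * (norm v : ℂ) ^ (-(((1 / 2 : ℝ)) : ℂ)))‖

/-- `P*(y) = exp (- ∑_i ∑_{v ∉ S, q_v^k ≤ y} (∑_j r_{i,v,j}^k) / (k q_v^{k/2}))`, `k = p.2 + 1` -/
noncomputable def productStar (S : Finset (HeightOneSpectrum (𝓞 K)))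
    (r : (i : Fin m) → HeightOneSpectrum (𝓞 K) → Fin (N i) → ℂ) (y : ℝ) : ℝ :=
  ∏ i, Real.exp (-∑ᶠ (p : {v : HeightOneSpectrum (𝓞 K) // v ∉ S} × ℕ) (_ : (norm p.1.1 : ℝ) ^ (p.2 + 1) ≤ y),
    (∑ j, r i p.1.1 j ^ (p.2 + 1)).re / (((p.2 : ℝ) + 1) * ((norm p.1.1 : ℝ) ^ (1 / 2 : ℝ)) ^ (p.2 + 1)))

/-- the central value of `F` -/
noncomputable def central (F : ℂ → ℂ) : ℂ := F ((1 / 2 : ℝ) : ℂ)

/-- **Simultaneous nonvanishing of central values, the Riemann hypothesis, and one Euler product on one sequence of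
windows.** -/
theorem result (K : Type) [Field K] [NumberField K] (m : ℕ) (N : Fin m → ℕ) (S : Finset (HeightOneSpectrum (𝓞 K)))
    (r : (i : Fin m) → HeightOneSpectrum (𝓞 K) → Fin (N i) → ℂ) (hr : ∀ i, SelfDual S (r i))
    (F : Fin m → ℂ → ℂ) (hF : ∀ i, IsL S (r i) (F i)) (δ : ℝ) (h0 : 0 < δ) (h1 : δ < 1) :
    -- (1) all central values are different from zero
    List.TFAE [
      (∀ i, NoZeros (1 / 2) (F i)) ∧ ∀ i, central (F i) ≠ 0,
      ∃ B : ℝ, ∃ᶠ Y : ℝ in atTop, MeanBound δ (fun y => |Real.log (product S r y)|) B Y,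
      ∃ B : ℝ, ∀ᶠ Y : ℝ in atTop, MeanBound δ (fun y => |Real.log (product S r y)|) B Y] ∧
    -- (2) even orders
    ((∀ i, ∀ e : ℤ, Order (1 / 2) (F i) e → 2 ∣ e) → ∀ κ : ℝ, 0 ≤ κ → κ < 2 → List.TFAE [
      (∀ i, NoZeros (1 / 2) (F i)) ∧ ∀ i, central (F i) ≠ 0,
      ∃ B : ℝ, ∃ᶠ Y : ℝ in atTop, MeanBound δ (excess (product S r) κ) B Y,
      ∃ B : ℝ, ∀ᶠ Y : ℝ in atTop, MeanBound δ (excess (product S r) κ) B Y]) ∧
    -- (3) the sum of the orders
    (∀ κ : ℝ, List.TFAE [
      (∀ i, NoZeros (1 / 2) (F i)) ∧ ∃ e : Fin m → ℤ, (∀ i, Order (1 / 2) (F i) (e i)) ∧ ((∑ i, e i : ℤ) : ℝ) ≤ κ,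
      ∃ B : ℝ, ∃ᶠ Y : ℝ in atTop, MeanBound δ (excess (product S r) κ) B Y,
      ∃ B : ℝ, ∀ᶠ Y : ℝ in atTop, MeanBound δ (excess (product S r) κ) B Y]) ∧
    (∀ (κ : ℝ) (e : Fin m → ℤ), (∀ i, Order (1 / 2) (F i) (e i)) → ((∑ i, e i : ℤ) : ℝ) ≤ κ →
      ((Nat.card {i // central (F i) = 0} : ℝ) ≤ κ ∧
        ((∀ i, 2 ∣ e i) → 2 * (Nat.card {i // central (F i) = 0} : ℝ) ≤ κ))) ∧
    -- (4) the product of the central values
    (∀ A : ℝ, 0 < A → List.TFAE [
      (∀ i, NoZeros (1 / 2) (F i)) ∧ ∏ i, central (F i) = A,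
      ∀ ε : ℝ, 0 < ε → ∃ᶠ Y : ℝ in atTop, MeanBound δ (fun y => |Real.log (A * productStar S r y)|) ε Y,
      ∀ ε : ℝ, 0 < ε → ∀ᶠ Y : ℝ in atTop, MeanBound δ (fun y => |Real.log (A * productStar S r y)|) ε Y]) ∧
    -- (5) at least one central value vanishes
    (((∀ i, NoZeros (1 / 2) (F i)) ∧ ∃ i, central (F i) = 0) ↔
      ∃ (e : ℤ) (B : ℝ), 1 ≤ e ∧ ∃ᶠ Y : ℝ in atTop, MeanBound δ (error (product S r) e) B Y) := by
  classical
  have hc : (1 / 2 : ℝ) = (((0 : ℕ) : ℝ) + 1) / 2 := by norm_num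
  have hP : Pool.Agent.Q18.P.Pure 0 S (Pool.Agent.Q18.P.cat r) := Pool.Agent.Q18.P.cat_pure fun i => (hr i).pure
  have hH : Holo (1 / 2) (fun s => ∏ i, F i s) := Pool.Agent.Q18.P.holo_prod _ fun i _ => (hF i).holo
  have hE : Pool.Agent.Q18.P.Euler (1 / 2) S (Pool.Agent.Q18.P.cat r) (fun s => ∏ i, F i s) :=
    Pool.Agent.Q18.P.cat_euler fun i s hs => (hF i).euler s (by linarith)
  have L := Pool.Agent.Q18.P.laws hc hP.le hH hE h0 h1
  have e1 : product S r = Pool.Agent.Q18.P.product (1 / 2) S (Pool.Agent.Q18.P.cat r) := by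
    funext y
    rw [Pool.Agent.Q18.P.product_cat]
    rfl
  have e2 : productStar S r = Pool.Agent.Q18.P.productStar (1 / 2) S (Pool.Agent.Q18.P.cat r) := by
    funext y
    rw [Pool.Agent.Q18.P.star_cat]
    rfl
  have hz : NoZeros (1 / 2) (fun s => ∏ i, F i s) ↔ ∀ i, NoZeros (1 / 2) (F i) := Pool.Agent.Q18.P.noZeros_prod
  have hne : (∏ i, F i ((1 / 2 : ℝ) : ℂ) ≠ 0) ↔ ∀ i, central (F i) ≠ 0 := by
    rw [Finset.prod_ne_zero_iff]
    exact ⟨fun h i => h i (Finset.mem_univ i), fun h i _ => h i⟩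
  have hfin : (∀ i, NoZeros (1 / 2) (F i)) → ∃ e : Fin m → ℤ, ∀ i, Order (1 / 2) (F i) (e i) := by
    intro h
    have := fun i => Pool.Agent.Q18.P.order_finite (hF i).holo (h i)
    choose e he using this
    exact ⟨e, he⟩
  have hsum : ∀ e : Fin m → ℤ, (∀ i, Order (1 / 2) (F i) (e i)) → Order (1 / 2) (fun s => ∏ i, F i s) (∑ i, e i) :=
    fun e he => Pool.Agent.Q18.P.order_prod Finset.univ (fun i _ => (hF i).holo) fun i _ => he i
  have huniq : ∀ e e' : ℤ, Order (1 / 2) (fun s => ∏ i, F i s) e → Order (1 / 2) (fun s => ∏ i, F i s) e' → e = e' := by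
    intro e e' h h'
    unfold Pool.Agent.Q18.P.Order at h h'
    rw [h] at h'
    exact_mod_cast h'
  rw [e1, e2]
  refine ⟨?_, fun hp κ g1 g2 => ?_, fun κ => ?_, fun κ e he hle => ?_, fun A hA => ?_, ?_⟩
  · have t := L.nonvanish hH
    rw [hz, hne] at t
    exact t
  · have t := L.upper κ
    have e3 : (NoZeros (1 / 2) (fun s => ∏ i, F i s) ∧ ∃ e : ℤ, Order (1 / 2) (fun s => ∏ i, F i s) e ∧ (e : ℝ) ≤ κ) ↔
        ((∀ i, NoZeros (1 / 2) (F i)) ∧ ∀ i, central (F i) ≠ 0) := by
      rw [hz]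
      refine and_congr_right fun hzz => ?_
      obtain ⟨e, he⟩ := hfin hzz
      constructor
      · rintro ⟨e', he', hle⟩ i
        have h3 := huniq _ _ he' (hsum e he)
        have hev : ∀ i, 0 ≤ e i ∧ 2 ∣ e i := fun i =>
          ⟨Pool.Agent.Q18.P.order_nonneg (hF i).holo (he i), hp i _ (he i)⟩
        have h4 : (e' : ℝ) < 2 := lt_of_le_of_lt hle g2
        have h5 : ∑ i, e i < 2 := by
          rw [← h3]
          exact_mod_cast h4
        have h6 : e i ≤ ∑ j, e j := Finset.single_le_sum (fun j _ => (hev j).1) (Finset.mem_univ i)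
        have h7 := hev i
        have h8 : e i = 0 := by omega
        have h9 := he i
        rw [h8] at h9
        exact (Pool.Agent.Q18.P.value_iff (hF i).holo).1 h9
      · intro hn
        have he0 : ∀ i, Order (1 / 2) (F i) 0 := fun i => (Pool.Agent.Q18.P.value_iff (hF i).holo).2 (hn i)
        refine ⟨0, ?_, by exact_mod_cast g1⟩
        have := hsum (fun _ => 0) he0
        rwa [Finset.sum_const_zero] at this
    rw [e3] at t
    exact t
  · have t := L.upper κ
    have e3 : (NoZeros (1 / 2) (fun s => ∏ i, F i s) ∧ ∃ e : ℤ, Order (1 / 2) (fun s => ∏ i, F i s) e ∧ (e : ℝ) ≤ κ) ↔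
        ((∀ i, NoZeros (1 / 2) (F i)) ∧ ∃ e : Fin m → ℤ, (∀ i, Order (1 / 2) (F i) (e i)) ∧
          ((∑ i, e i : ℤ) : ℝ) ≤ κ) := by
      rw [hz]
      refine and_congr_right fun hzz => ?_
      constructor
      · rintro ⟨e', he', hle⟩
        obtain ⟨e, he⟩ := hfin hzz
        have h3 := huniq _ _ he' (hsum e he)
        exact ⟨e, he, by rw [← h3]; exact hle⟩
      · rintro ⟨e, he, hle⟩
        exact ⟨_, hsum e he, hle⟩
    rw [e3] at t
    exact t
  · have hnn : ∀ i, 0 ≤ e i := fun i => Pool.Agent.Q18.P.order_nonneg (hF i).holo (he i)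
    have hone : ∀ i, central (F i) = 0 → 1 ≤ e i := by
      intro i hi
      have : e i ≠ 0 := by
        intro h0'
        have h9 := he i
        rw [h0'] at h9
        exact (Pool.Agent.Q18.P.value_iff (hF i).holo).1 h9 hi
      have := hnn i
      omega
    have hcard : (Nat.card {i // central (F i) = 0} : ℤ) = ∑ i ∈ Finset.univ.filter (fun i => central (F i) = 0), (1 : ℤ) := by
      rw [Finset.sum_const, nsmul_eq_mul, mul_one, Nat.card_eq_fintype_card, Fintype.card_subtype]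
    have hsub : ∀ w : Fin m → ℤ, (∀ i, 0 ≤ w i) →
        ∑ i ∈ Finset.univ.filter (fun i => central (F i) = 0), w i ≤ ∑ i, w i := fun w hw =>
      Finset.sum_le_sum_of_subset_of_nonneg (Finset.filter_subset _ _) fun i _ _ => hw i
    have hle1 : (Nat.card {i // central (F i) = 0} : ℤ) ≤ ∑ i, e i := by
      rw [hcard]
      refine le_trans (Finset.sum_le_sum fun i hi => ?_) (hsub e hnn)
      exact hone i (Finset.mem_filter.1 hi).2
    constructor
    · refine le_trans ?_ hle
      exact_mod_cast hle1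
    · intro hev
      refine le_trans ?_ hle
      have hle2 : 2 * (Nat.card {i // central (F i) = 0} : ℤ) ≤ ∑ i, e i := by
        rw [hcard, Finset.mul_sum]
        refine le_trans (Finset.sum_le_sum fun i hi => ?_) (hsub e hnn)
        have h3 := hone i (Finset.mem_filter.1 hi).2
        have h4 := hev i
        omega
      exact_mod_cast hle2
  · have t := Pool.Agent.Q18.P.value_real hc hP hH hE h0 h1 hA
    rw [hz] at t
    exact t
  · have t := L.vanish hH
    rw [hz] at t
    rw [← t]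
    refine and_congr_right fun _ => ?_
    have h3 : (∏ i, F i ((1 / 2 : ℝ) : ℂ) = 0) ↔ ∃ i, central (F i) = 0 := by
      rw [Finset.prod_eq_zero_iff]
      exact ⟨fun ⟨i, _, h⟩ => ⟨i, h⟩, fun ⟨i, h⟩ => ⟨i, Finset.mem_univ i, h⟩⟩
    exact h3.symm

end Pool.Agent.Results.MP_86aa84_nt.SimultaneousWindows
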